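import Mathlib
import Pool.Agent.R104.Quiddity

set_option autoImplicit false

/-!
# MP_762e7e_co: `(E_N)` has only finitely many irreducible solutions

The definitions (`T`, `M`, `IsSolution`, `osum`, `Equivalent`, `Reducible`, `IsIrreducible`) are in
`Pool.Agent.R104.Quiddity`.

Proof. Let `(a_1, ..., a_n)` be a solution and let `r_k` be the first row of `M(a_1, ..., a_k)`. If
`r_j = ± r_i` with `i < j`, then the block `(a_{i+1}, ..., a_j)` has continuant
`M(a_{i+1}, ..., a_j)_{11} = ± 1`, and the solution is reducible if the block leaves at least three
entries. The rows `r_k` are unimodular, so this happens for some `i < j ≤ n - 3` if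
`n - 2` is larger than the number of the unimodular rows modulo sign.
-/

namespace Pool.Agent.Results.MP_762e7e_co.Finiteness

open Pool.Agent.R104.Quiddity Matrix Finset

section ring

variable {R : Type*} [CommRing R]

/-- the first row of `M(a_1, ..., a_k)` -/
def row (c : List R) (k : ℕ) : R × R := (M (c.take k) 0 0, M (c.take k) 0 1)

/-- If the rows with the indices `i < j` agree up to sign, the block between them has continuant
`± 1`. -/
theorem block_corner {c : List R} {i j : ℕ} (hij : i ≤ j) {ε : R}
    (h : row c j = (ε * (row c i).1, ε * (row c i).2)) :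
    M ((c.take j).drop i) 0 0 = ε := by
  have h1 : c.take j = c.take i ++ (c.take j).drop i := by
    conv_lhs => rw [← List.take_append_drop i (c.take j)]
    rw [List.take_take, min_eq_left hij]
  have h2 : M (c.take j) = M ((c.take j).drop i) * M (c.take i) := by
    conv_lhs => rw [h1]
    rw [M_append]
  have h3 := det_M (c.take i)
  rw [Matrix.det_fin_two] at h3
  have e0 : M (c.take j) 0 0 = ε * M (c.take i) 0 0 := congrArg Prod.fst h
  have e1 : M (c.take j) 0 1 = ε * M (c.take i) 0 1 := congrArg Prod.snd h
  rw [h2, Matrix.mul_apply, Fin.sum_univ_two] at e0 e1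
  linear_combination (M (c.take i) 1 1) * e0 - (M (c.take i) 1 0) * e1 +
    (ε - M ((c.take j).drop i) 0 0) * h3

/-- If two of the rows `r_0, ..., r_{n-3}` agree up to sign, the solution is reducible. -/
theorem reducible_of_rows {c : List R} (hc : IsSolution c) {i j : ℕ} (hij : i < j)
    (hj : j + 3 ≤ c.length)
    (h : row c j = row c i ∨ row c j = (-(row c i).1, -(row c i).2)) : Reducible c := by
  have hk : M ((c.take j).drop i) 0 0 = 1 ∨ M ((c.take j).drop i) 0 0 = -1 := by
    rcases h with h | h
    · left
      apply block_corner hij.le
      rw [h, one_mul, one_mul]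
    · right
      apply block_corner hij.le
      rw [h, neg_one_mul, neg_one_mul]
  have h1 : c = c.take i ++ ((c.take j).drop i ++ c.drop j) := by
    have h2 : c.take j = c.take i ++ (c.take j).drop i := by
      conv_lhs => rw [← List.take_append_drop i (c.take j)]
      rw [List.take_take, min_eq_left hij.le]
    rw [← List.append_assoc, ← h2, List.take_append_drop]
  have hu : (c.take j).drop i ≠ [] := by
    intro h0
    have := congrArg List.length h0
    simp only [List.length_drop, List.length_take, List.length_nil] at this
    omega
  have hl : 3 ≤ (c.take i).length + (c.drop j).length := by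
    simp only [List.length_drop, List.length_take]
    omega
  rw [h1]
  apply reducible_of_block hu hl _ hk
  rw [← h1]
  exact hc

theorem row_unimodular (c : List R) (k : ℕ) :
    ∃ x y : R, (row c k).1 * x + (row c k).2 * y = 1 := by
  have h := det_M (c.take k)
  rw [Matrix.det_fin_two] at h
  exact ⟨M (c.take k) 1 1, - M (c.take k) 1 0, by
    show M (c.take k) 0 0 * _ + M (c.take k) 0 1 * _ = 1
    linear_combination h⟩

open Classical in
/-- the unimodular rows -/
noncomputable def unimodular (R : Type*) [CommRing R] [Fintype R] : Finset (R × R) :=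
  univ.filter (fun r => ∃ x y : R, r.1 * x + r.2 * y = 1)

theorem mem_unimodular [Fintype R] {r : R × R} :
    r ∈ unimodular R ↔ ∃ x y : R, r.1 * x + r.2 * y = 1 := by
  classical
  unfold unimodular
  rw [mem_filter]
  exact ⟨fun h => h.2, fun h => ⟨mem_univ _, h⟩⟩

/-- an irreducible solution has length at most `2` plus the number of unimodular rows -/
theorem length_le [Fintype R] {c : List R} (hc : IsIrreducible c) :
    c.length ≤ (unimodular R).card + 2 := by
  classical
  obtain ⟨hs, h3, hr⟩ := hc
  by_contra hlt
  push Not at hlt
  obtain ⟨i, hi, j, hj, hne, heq⟩ := Finset.exists_ne_map_eq_of_card_lt_of_maps_to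
    (s := Finset.range (c.length - 2)) (t := unimodular R) (f := row c)
    (by rw [Finset.card_range]; omega)
    (by
      intro k _
      rw [Finset.mem_coe, mem_unimodular]
      exact row_unimodular c k)
  rw [Finset.mem_range] at hi hj
  apply hr
  rcases Nat.lt_or_gt_of_ne hne with h | h
  · exact reducible_of_rows hs h (by omega) (Or.inl heq.symm)
  · exact reducible_of_rows hs h (by omega) (Or.inl heq)

/-- if no unimodular row is equal to its negative, then twice the length is at most `4` plus the number of unimodular rows -/
theorem two_length_le [Fintype R] (h2 : ∀ r ∈ unimodular R, (-r.1, -r.2) ≠ r) {c : List R}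
    (hc : IsIrreducible c) : 2 * c.length ≤ (unimodular R).card + 4 := by
  classical
  obtain ⟨hs, h3, hr⟩ := hc
  by_contra hlt
  push Not at hlt
  -- the map `(k, s) ↦ ± r_k`
  obtain ⟨f, hf⟩ : ∃ f : ℕ × Bool → R × R, ∀ k s, f (k, s) =
      if s then row c k else (-(row c k).1, -(row c k).2) :=
    ⟨fun p => if p.2 then row c p.1 else (-(row c p.1).1, -(row c p.1).2), fun _ _ => rfl⟩
  have hU : ∀ k, row c k ∈ unimodular R := by
    intro k
    rw [mem_unimodular]
    exact row_unimodular c k
  have hU' : ∀ k, ((-(row c k).1, -(row c k).2) : R × R) ∈ unimodular R := by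
    intro k
    rw [mem_unimodular]
    obtain ⟨x, y, h⟩ := row_unimodular c k
    refine ⟨-x, -y, ?_⟩
    linear_combination h
  obtain ⟨⟨i, s⟩, hi, ⟨j, t⟩, hj, hne, heq⟩ := Finset.exists_ne_map_eq_of_card_lt_of_maps_to
    (s := Finset.range (c.length - 2) ×ˢ (univ : Finset Bool)) (t := unimodular R) (f := f)
    (by rw [Finset.card_product, Finset.card_range, Finset.card_univ, Fintype.card_bool]; omega)
    (by
      rintro ⟨k, s⟩ _
      rw [Finset.mem_coe, hf]
      cases s
      · exact hU' k
      · exact hU k)
  rw [Finset.mem_product, Finset.mem_range] at hi hj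
  simp only [mem_univ, and_true] at hi hj
  have key : ∀ i j : ℕ, i < j → j < c.length - 2 →
      (row c j = row c i ∨ row c j = (-(row c i).1, -(row c i).2)) → False := by
    intro i j hij hj h
    exact hr (reducible_of_rows hs hij (by omega) h)
  have hsign : ∀ a b : R × R, a = (-b.1, -b.2) → b = (-a.1, -a.2) := by
    rintro a b rfl
    simp
  rcases lt_trichotomy i j with h | h | h
  · apply key i j h hj
    rw [hf, hf] at heq
    cases s <;> cases t
    · left
      simp only [Bool.false_eq_true, if_false, Prod.mk.injEq, neg_inj] at heq
      exact Prod.ext heq.1.symm heq.2.symm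
    · right
      simp only [Bool.false_eq_true, if_false, if_true] at heq
      exact heq.symm
    · right
      simp only [Bool.false_eq_true, if_false, if_true] at heq
      exact hsign _ _ heq
    · left
      simp only [if_true] at heq
      exact heq.symm
  · subst h
    rw [hf, hf] at heq
    cases s <;> cases t
    · exact hne rfl
    · simp only [Bool.false_eq_true, if_false, if_true] at heq
      exact h2 _ (hU i) heq
    · simp only [Bool.false_eq_true, if_false, if_true] at heq
      exact h2 _ (hU i) heq.symm
    · exact hne rfl
  · apply key j i h hi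
    rw [hf, hf] at heq
    cases s <;> cases t
    · left
      simp only [Bool.false_eq_true, if_false, Prod.mk.injEq, neg_inj] at heq
      exact Prod.ext heq.1 heq.2
    · right
      simp only [Bool.false_eq_true, if_false, if_true] at heq
      exact hsign _ _ heq.symm
    · right
      simp only [Bool.false_eq_true, if_false, if_true] at heq
      exact heq
    · left
      simp only [if_true] at heq
      exact heq

theorem finite_irreducible [Fintype R] : {c : List R | IsIrreducible c}.Finite := by
  apply (List.finite_length_le R ((unimodular R).card + 2)).subset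
  intro c hc
  exact length_le hc

end ring

/-- **Q1 is true.** For every `N ≥ 2` the equation `(E_N)` has only finitely many irreducible
solutions; for `N ≥ 3` they all have size at most `(N ^ 2 + 3) / 2`. -/
theorem result :
    (∀ N : ℕ, 2 ≤ N → {c : List (ZMod N) | IsIrreducible c}.Finite) ∧
    (∀ N : ℕ, 3 ≤ N → ∀ c : List (ZMod N), IsIrreducible c → 2 * c.length ≤ N ^ 2 + 3) := by
  classical
  constructor
  · intro N hN
    have : NeZero N := ⟨by omega⟩
    exact finite_irreducible
  · intro N hN c hc
    have : NeZero N := ⟨by omega⟩
    have hcard : (unimodular (ZMod N)).card ≤ N ^ 2 - 1 := by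
      have h0 : ((0, 0) : ZMod N × ZMod N) ∉ unimodular (ZMod N) := by
        rw [mem_unimodular]
        rintro ⟨x, y, h⟩
        simp only [zero_mul, add_zero] at h
        have h1 : ((1 : ℕ) : ZMod N) = 0 := by
          rw [Nat.cast_one]; exact h.symm
        rw [ZMod.natCast_eq_zero_iff] at h1
        have := Nat.le_of_dvd one_pos h1
        omega
      have h1 : unimodular (ZMod N) ⊆ univ.erase ((0, 0) : ZMod N × ZMod N) := by
        intro r hr
        rw [mem_erase]
        refine ⟨?_, mem_univ _⟩
        rintro rfl
        exact h0 hr
      have h2 := Finset.card_le_card h1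
      rw [Finset.card_erase_of_mem (mem_univ _), Finset.card_univ, Fintype.card_prod,
        ZMod.card, ← sq] at h2
      exact h2
    have h2 : ∀ r ∈ unimodular (ZMod N), (-r.1, -r.2) ≠ r := by
      rintro ⟨a, b⟩ hr he
      rw [mem_unimodular] at hr
      obtain ⟨x, y, h⟩ := hr
      simp only [Prod.mk.injEq] at he h
      have h3 : ((2 : ℕ) : ZMod N) = 0 := by
        push_cast
        linear_combination (-2 : ZMod N) * h - x * he.1 - y * he.2
      rw [ZMod.natCast_eq_zero_iff] at h3
      have := Nat.le_of_dvd two_pos h3
      omega
    have h3 := two_length_le h2 hc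
    have h4 : 1 ≤ N ^ 2 := Nat.one_le_pow _ _ (by omega)
    omega

end Pool.Agent.Results.MP_762e7e_co.Finiteness
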